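import Pool.Agent.Lib.MP_e1f7e2_al.FA.Iface

set_option autoImplicit false

/-!
Project FA (MP_e1f7e2_al): module SIXS, the reduction of the main claim to the two configurations.
-/

namespace Pool.Agent.Lib.MP_e1f7e2_al.FA.H35

variable {K : Type*} [Field K] {w : Fin 3 → ℝ}

theorem zero_lin (f g : A K 3) : (0 : A K 3) ∈ lin f g := Submodule.zero_mem _

theorem smul_B {f g x : A K 3} (c : K) (h : x ∈ B f g) : c • x ∈ B f g :=
  Subalgebra.smul_mem _ h c

theorem minrep (F : Facts K w) (u v p : A K 3) :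
    ∃ r ∈ lin u v, ∀ r' ∈ lin u v, dg w (p + r) ≤ dg w (p + r + r') := by
  obtain ⟨x, ⟨r, hr, rfl⟩, hx⟩ := F.d.minim {x | ∃ r ∈ lin u v, x = p + r} ⟨p + 0, 0, zero_lin u v, rfl⟩
  refine ⟨r, hr, fun r' hr' => ?_⟩
  exact hx _ ⟨r + r', Submodule.add_mem _ hr hr', by rw [add_assoc]⟩

theorem good (F : Facts K w) {u v p q : A K 3} (hf : Fr u v p) (ho : Or2 w u v) (hq : q ∈ B u v) :
    ∃ r ∈ lin u v, Fr u v (p + q + r) ∧ Or3 w u v (p + q + r) ∧
      sp u v (p + q + r) = sp u v (p + q) ∧
      vd w (sp u v (p + q)) = dg w u + dg w v + dg w (p + q + r) := by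
  obtain ⟨r, hr, hm⟩ := minrep F u v (p + q)
  have h1 : Fr u v (p + q + r) := by
    have := F.f.el u v p (q + r) 1 hf one_ne_zero
      (Subalgebra.add_mem _ hq (F.s.linB _ _ _ hr))
    rwa [one_smul, ← add_assoc] at this
  have h2 : Or3 w u v (p + q + r) := F.o.mn3 _ _ _ h1 ho hm
  have h3 : sp u v (p + q + r) = sp u v (p + q) := by
    have := F.s.sel u v (p + q) r 1 one_ne_zero hr
    rwa [one_smul] at this
  exact ⟨r, hr, h1, h2, h3, by rw [← h3]; exact F.v.eq _ _ _ h1 h2⟩

theorem rerep (F : Facts K w) {l g h y q : A K 3} (h1 : Fr l g h) (h2 : sp l g h = sp l g y)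
    (hq : q ∈ B l g) : ∃ q2 ∈ B l g, sp l g (h + q) = sp l g (y + q2) := by
  have hm : h ∈ sp l g y := by
    rw [← h2]
    exact (F.s.spmem _ _ _ _).2 ⟨0, 0, 1, 0, by simp⟩
  obtain ⟨a, b, c, d, hh⟩ := (F.s.spmem _ _ _ _).1 hm
  have hc : c ≠ 0 := by
    rintro rfl
    have := F.f.indep l g h a b (-1) d h1 (by
      nth_rewrite 1 [hh]; simp; abel)
    exact absurd this.2.2.1 (by simp)
  have hl : a • l + b • g + d • (1 : A K 3) ∈ B l g :=
    F.s.linB _ _ _ ((F.s.linmem _ _ _).2 ⟨a, b, d, rfl⟩)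
  refine ⟨c⁻¹ • (a • l + b • g + d • 1 + q), smul_B _ (Subalgebra.add_mem _ hl hq), ?_⟩
  have h3 := F.s.sel l g (y + c⁻¹ • (a • l + b • g + d • 1 + q)) 0 c hc (zero_lin _ _)
  rw [← h3, add_zero, smul_add, smul_smul, mul_inv_cancel₀ hc, one_smul]
  congr 1
  rw [hh]
  abel

/-- two planes of a vertex have a common line -/
theorem common (F : Facts K w) {a b h a' b' h' : A K 3} (h1 : Fr a b h) (h2 : Fr a' b' h')
    (hs : sp a b h = sp a' b' h') : lin a b = lin a' b' ∨
      ∃ l g0 m0 : A K 3, lin a b = lin l g0 ∧ lin a' b' = lin l m0 ∧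
        ∃ α β γ δ : K, γ ≠ 0 ∧ g0 = α • l + β • m0 + γ • h' + δ • 1 := by
  have ha : a ∈ sp a' b' h' := by
    rw [← hs]; exact (F.s.spmem _ _ _ _).2 ⟨1, 0, 0, 0, by simp⟩
  have hb : b ∈ sp a' b' h' := by
    rw [← hs]; exact (F.s.spmem _ _ _ _).2 ⟨0, 1, 0, 0, by simp⟩
  obtain ⟨a1, a2, a3, a4, ha⟩ := (F.s.spmem _ _ _ _).1 ha
  obtain ⟨b1, b2, b3, b4, hb⟩ := (F.s.spmem _ _ _ _).1 hb
  have ind : ∀ x y z : K, x • a + y • b + z • (1 : A K 3) = 0 → x = 0 ∧ y = 0 := by
    intro x y z e
    have := F.f.indep a b h x y 0 z h1 (by rw [zero_smul, add_zero]; exact e)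
    exact ⟨this.1, this.2.1⟩
  -- the second alternative, from a line `l = x a + y b` of the plane in `lin a' b'`
  have key : ∀ l g0 : A K 3, lin a b = lin l g0 → (∃ x y z : K, l = x • a' + y • b' + z • 1) →
      (∃ x y : K, (x ≠ 0 ∨ y ≠ 0) ∧ l = x • a + y • b) →
      (∃ x y z t : K, z ≠ 0 ∧ g0 = x • a' + y • b' + z • h' + t • 1) →
      ∃ l g0 m0 : A K 3, lin a b = lin l g0 ∧ lin a' b' = lin l m0 ∧
        ∃ α β γ δ : K, γ ≠ 0 ∧ g0 = α • l + β • m0 + γ • h' + δ • 1 := by
    rintro l g0 e1 ⟨x, y, z, hl⟩ ⟨x', y', hxy, hl'⟩ ⟨p, q, r, t, hr, hg⟩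
    by_cases hx : x = 0
    · have hy : y ≠ 0 := by
        rintro rfl
        have := ind x' y' (-z) (by rw [← hl', hl, hx]; simp)
        rcases hxy with h | h
        · exact h this.1
        · exact h this.2
      refine ⟨l, g0, a', e1, ?_, q / y, p, r, t - q / y * z, hr, ?_⟩
      · rw [F.s.lcomm a' b']
        have := F.s.lel b' a' y 0 z hy
        rw [← this]
        congr 1
        rw [hl, hx]; simp
      · rw [hg, hl, hx]
        have : (q / y) * y = q := div_mul_cancel₀ q hy
        simp only [smul_add, smul_smul, sub_smul, zero_smul, zero_add, this]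
        abel
    · refine ⟨l, g0, b', e1, ?_, p / x, q - p / x * y, r, t - p / x * z, hr, ?_⟩
      · have := F.s.lel a' b' x y z hx
        rw [← this, hl]
      · rw [hg, hl]
        have : (p / x) * x = p := div_mul_cancel₀ p hx
        simp only [smul_add, smul_smul, sub_smul, this]
        abel
  by_cases hb3 : b3 = 0
  · by_cases ha3 : a3 = 0
    · left
      have hle : lin a b ≤ lin a' b' := by
        rw [lin, Submodule.span_le]
        rintro x (rfl | rfl | rfl)
        · exact (F.s.linmem _ _ _).2 ⟨0, 0, 1, by simp⟩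
        · exact (F.s.linmem _ _ _).2 ⟨a1, a2, a4, by rw [ha, ha3]; simp⟩
        · exact (F.s.linmem _ _ _).2 ⟨b1, b2, b4, by rw [hb, hb3]; simp⟩
      have fr : ∀ u v t : A K 3, Fr u v t → Module.finrank K (lin u v) = 3 := by
        intro u v t hf
        have hli : LinearIndependent K ![(1 : A K 3), u, v] := by
          rw [Fintype.linearIndependent_iff]
          intro g hg i
          rw [Fin.sum_univ_three] at hg
          have h3 := F.f.indep u v t (g 1) (g 2) 0 (g 0) hf (by
            rw [← hg]; simp; abel)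
          fin_cases i
          · exact h3.2.2.2
          · exact h3.1
          · exact h3.2.1
        have h4 := finrank_span_eq_card hli
        have h5 : lin u v = Submodule.span K (Set.range ![(1 : A K 3), u, v]) := by
          rw [lin]
          congr 1
          ext x
          simp [Matrix.range_cons, Matrix.range_empty]
          tauto
        rw [h5, h4]
        simp
      have : FiniteDimensional K (lin a' b') := by
        rw [lin]
        exact FiniteDimensional.span_of_finite K (by simp)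
      exact Submodule.eq_of_le_of_finrank_eq hle (by rw [fr a b h h1, fr a' b' h' h2])
    · right
      refine key b a (F.s.lcomm _ _) ⟨b1, b2, b4, by rw [hb, hb3]; simp⟩
        ⟨0, 1, Or.inr one_ne_zero, by simp⟩ ⟨a1, a2, a3, a4, ha3, ha⟩
  · right
    refine key (b3 • a + (-a3) • b) b ?_ ⟨b3 * a1 - a3 * b1, b3 * a2 - a3 * b2, b3 * a4 - a3 * b4, ?_⟩
      ⟨b3, -a3, Or.inl hb3, rfl⟩ ⟨b1, b2, b3, b4, hb3, hb⟩
    · have := F.s.lel a b b3 (-a3) 0 hb3
      rw [zero_smul, add_zero] at this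
      exact this.symm
    · rw [ha, hb]
      simp only [smul_add, smul_smul, sub_smul, neg_smul, neg_mul]
      rw [mul_comm a3 b3]
      abel

/-- the end of the proof, in normalized position -/
theorem fin1 (F : Facts K w) {ν : ℝ} (H : H6 K w ν)
    (hI : ∀ (l m f fs m' : A K 3), CI w ν l m f fs m' → Red w (sp l f m'))
    (hII : ∀ (l m f fs f' : A K 3) (k : K), CII w ν l m f fs f' k → Red w (sp l (f + k • m) f'))
    {l m f h q qu : A K 3} {k : K} (hlm : Fr l m f) (ho2 : Or2 w l m) (ho3 : Or3 w l m f)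
    (hν : vd w (sp l m f) = ν) (hh : Fr l (f + k • m) h) (hs : sp l (f + k • m) h = sp l m f)
    (hq : q ∈ B l (f + k • m)) (hle : vd w (sp l (f + k • m) (h + q)) ≤ ν)
    (hqu : qu ∈ B l m) (hU : vd w (sp l m (f + qu)) < ν) (hRU : Red w (sp l m (f + qu))) :
    Red w (sp l (f + k • m) (h + q)) := by
  obtain ⟨qs, hqs, hmn⟩ := F.o.mnex l m f
  set fs := f + qs with hfs
  have vlm : vd w (sp l m f) = dg w l + dg w m + dg w f := F.v.eq _ _ _ hlm ho3
  have hredfs : Red w (sp l m fs) := H.ha _ _ hU hRU (F.f.adj' l m f qu qs hlm hqu hqs)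
  have hlt : dg w fs < dg w f := by
    by_contra hcon
    have hcon := not_lt.1 hcon
    obtain ⟨r, hr, _, _, _, h5⟩ := good F hlm ho2 hqu
    have h6 := hmn (qu + r - qs) (Subalgebra.sub_mem _
      (Subalgebra.add_mem _ hqu (F.s.linB _ _ _ hr)) hqs)
    have h7 : fs + (qu + r - qs) = f + qu + r := by rw [hfs]; abel
    rw [h7] at h6
    rw [h5] at hU
    linarith
  have hfm : ∀ r ∈ lin l m, dg w f ≤ dg w (f + r) := by
    intro r hr
    obtain ⟨x, y, z, rfl⟩ := (F.s.linmem _ _ _).1 hr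
    have := (ho3 x y 1 z).2.2 one_ne_zero
    have e : x • l + y • m + (1 : K) • f + z • (1 : A K 3) = f + (x • l + y • m + z • 1) := by
      rw [one_smul]; abel
    rwa [e] at this
  have hkm : k • m ∈ lin l m := (F.s.linmem _ _ _).2 ⟨0, k, 0, by simp⟩
  have hffs : f - fs ∈ B l m := by
    have : f - fs = -qs := by rw [hfs]; abel
    rw [this]; exact Subalgebra.neg_mem _ hqs
  by_cases hcase : k ≠ 0 ∧ dg w f < dg w m
  · -- configuration II
    obtain ⟨hk, hdf⟩ := hcase
    set g := f + k • m with hg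
    have c6 : C6 w ν l m f fs := ⟨hlm, ho3, hν, hffs, hlt, hmn, hredfs⟩
    have hdg : dg w g = dg w m := by
      rw [hg, F.d.add_right f (k • m) (by rw [F.d.smul k m hk]; exact hdf), F.d.smul k m hk]
    have hFg : Fr l g f := by
      have h1 := F.f.el l f m f k (F.f.p23 _ _ _ hlm) hk (F.s.bg l f)
      have e : k • m + f = g := by rw [hg]; abel
      rw [e] at h1
      exact F.f.p23 _ _ _ h1
    have hsg : sp l g f = sp l m f := by
      have h1 := F.s.sel l f m f k hk ((F.s.linmem _ _ _).2 ⟨0, 1, 0, by simp⟩)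
      have e : k • m + f = g := by rw [hg]; abel
      rw [e, F.s.scomm' l f g, F.s.scomm' l f m] at h1
      exact h1
    have hOg : Or2 w l g := by
      intro x y z
      have e : x • l + y • g + z • (1 : A K 3) = x • l + (y * k) • m + y • f + z • 1 := by
        rw [hg, smul_add, smul_smul]; abel
      have h1 := ho3 x (y * k) y z
      rw [← e] at h1
      refine ⟨h1.1, fun hy => ?_⟩
      rw [hdg]
      exact h1.2.1 (mul_ne_zero hy hk)
    obtain ⟨q2, hq2, e2⟩ := rerep F hh (hs.trans hsg.symm) hq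
    obtain ⟨r, hr, h1, h2, h3, h4⟩ := good F hFg hOg hq2
    rw [e2, ← h3]
    rw [e2] at hle
    refine hII l m f fs (f + q2 + r) k ⟨c6, hk, hdf, ?_, ?_⟩
    · have : f - (f + q2 + r) = -(q2 + r) := by abel
      rw [this]
      exact Subalgebra.neg_mem _ (Subalgebra.add_mem _ hq2 (F.s.linB _ _ _ hr))
    · rw [h4, hdg] at hle
      rw [vlm] at hν
      linarith
  · -- configuration I
    set f1 := f + k • m with hf1
    have hfm1 : dg w f1 ≤ dg w f := by
      by_cases hk : k = 0
      · rw [hf1, hk, zero_smul, add_zero]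
      · have h1 : dg w m ≤ dg w f := by
          by_contra h0
          exact hcase ⟨hk, not_le.1 h0⟩
        refine (F.d.add_le _ _).trans (max_le le_rfl ?_)
        rw [F.d.smul k m hk]; exact h1
    have hff1 : dg w f ≤ dg w f1 := hfm _ hkm
    have hFf1 : Fr l m f1 := by
      have := F.f.el l m f (k • m) 1 hlm one_ne_zero (F.s.linB _ _ _ hkm)
      rwa [one_smul] at this
    have hO31 : Or3 w l m f1 := F.o.mn3 _ _ _ hFf1 ho2 (fun r hr => by
      have h1 := hfm (k • m + r) (Submodule.add_mem _ hkm hr)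
      have e : f + (k • m + r) = f1 + r := by rw [hf1]; abel
      rw [e] at h1
      exact hfm1.trans h1)
    have hs1 : sp l m f1 = sp l m f := by
      have := F.s.sel l m f (k • m) 1 one_ne_zero hkm
      rwa [one_smul] at this
    have c6 : C6 w ν l m f1 fs := ⟨hFf1, hO31, by rw [hs1]; exact hν, by
      have e : f1 - fs = (f - fs) + k • m := by rw [hf1]; abel
      rw [e]
      exact Subalgebra.add_mem _ hffs (F.s.linB _ _ _ hkm), lt_of_lt_of_le hlt hff1, hmn, hredfs⟩
    have hFm : Fr l f1 m := F.f.p23 _ _ _ hFf1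
    have hOm : Or2 w l f1 := F.o.or32 _ _ _ (F.o.or3p23 _ _ _ hO31)
    have hsm : sp l f1 m = sp l m f := (F.s.scomm' l f1 m).trans hs1
    obtain ⟨q2, hq2, e2⟩ := rerep F hh (hs.trans hsm.symm) hq
    obtain ⟨r, hr, h1, h2, h3, h4⟩ := good F hFm hOm hq2
    rw [e2, ← h3]
    rw [e2] at hle
    refine hI l m f1 fs (m + q2 + r) ⟨c6, ?_, ?_⟩
    · have : m - (m + q2 + r) = -(q2 + r) := by abel
      rw [this]
      exact Subalgebra.neg_mem _ (Subalgebra.add_mem _ hq2 (F.s.linB _ _ _ hr))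
    · rw [h4] at hle
      rw [vlm] at hν
      linarith

/-- module SIXS -/
theorem sixs (K : Type*) [Field K] (w : Fin 3 → ℝ) (_hw : Gen w) (F : Facts K w) :
    SixsStatement K w := by
  intro ν H hI hII V V' hν hR hA
  by_cases hlt : vd w V < vd w V'
  · exact Red.step V' V (F.f.symm _ _ hA) hlt hR
  have hle : vd w V' ≤ vd w V := not_lt.1 hlt
  cases hR with
  | base _ hV hd => exact Red.base V' (F.f.vtx _ _ hA).2 (hle.trans hd)
  | step _ U hVU hdU hRU =>
    obtain ⟨a, b, h, q, hfr, hq, hV, rfl⟩ := hA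
    obtain ⟨a', b', h', q', hfr', hq', hV2, rfl⟩ := hVU
    rw [hν] at hdU hle
    have hss : sp a b h = sp a' b' h' := hV.symm.trans hV2
    rcases common F hfr hfr' hss with hab | ⟨l, g0, m0, hab, hab', α, β, γ, δ, hγ, hg0⟩
    · -- the same plane
      have e1 : sp a' b' h' = sp a b h' := F.s.slin _ _ _ _ _ hab.symm
      have e2 : sp a' b' (h' + q') = sp a b (h' + q') := F.s.slin _ _ _ _ _ hab.symm
      have hq2 : q' ∈ B a b := by rw [F.s.blin _ _ _ _ hab]; exact hq'
      have hfr2 : Fr a b h' := F.f.frlin _ _ _ _ _ hfr' hab.symm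
      obtain ⟨q3, hq3, e3⟩ := rerep F hfr2 (e1.symm.trans hss.symm) hq2
      rw [e2, e3] at hdU hRU
      exact H.ha _ _ hdU hRU (F.f.adj' a b h q3 q hfr hq3 hq)
    · have hfr1 : Fr l g0 h := F.f.frlin _ _ _ _ _ hfr hab
      have hfr2 : Fr l m0 h' := F.f.frlin _ _ _ _ _ hfr' hab'
      obtain ⟨x, ho2, hlx⟩ := F.o.exl l m0 (F.f.nc _ _ _ hfr2)
      set m := m0 + x • l with hm
      have hfr3 : Fr l m h' := F.f.frlin _ _ _ _ _ hfr2 hlx.symm
      obtain ⟨r, hr, h1, h2, h3, h4⟩ := good F hfr3 ho2 (Subalgebra.zero_mem (B l m))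
      rw [add_zero] at h1 h2 h3 h4
      set f := h' + r with hf
      have hlm : lin l m = lin a' b' := hlx.trans hab'.symm
      have hVf : sp l m f = V := by
        rw [h3, hV2]
        exact F.s.slin _ _ _ _ _ hlm
      -- the plane `lin a b`
      obtain ⟨r1, r2, r3, hr'⟩ := (F.s.linmem _ _ _).1 hr
      set k : K := (β - γ * r2) / γ with hk
      have hgk : lin a b = lin l (f + k • m) := by
        have e : g0 = γ • (f + k • m) + (α - β * x - γ * r1) • l + (δ - γ * r3) • 1 := by
          have e4 : γ * k = β - γ * r2 := mul_div_cancel₀ _ hγ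
          have e5 : h' = f - (r1 • l + r2 • m + r3 • 1) := by rw [hf, hr']; abel
          have e6 : m0 = m - x • l := by rw [hm]; abel
          rw [hg0, e5, e6]
          simp only [smul_add, smul_sub, smul_smul, sub_smul, e4]
          abel
        rw [hab, F.s.lcomm l g0, e, F.s.lel _ _ _ _ _ hγ, F.s.lcomm]
      have hqB : q ∈ B l (f + k • m) := by rw [← F.s.blin _ _ _ _ hgk]; exact hq
      have hV' : sp a b (h + q) = sp l (f + k • m) (h + q) := F.s.slin _ _ _ _ _ hgk
      have hfrh : Fr l (f + k • m) h := F.f.frlin _ _ _ _ _ hfr hgk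
      have hsh : sp l (f + k • m) h = sp l m f := by
        rw [hVf, hV]
        exact (F.s.slin _ _ _ _ _ hgk).symm
      -- the strict neighbour
      have hqu : q' - r ∈ B l m := by
        refine Subalgebra.sub_mem _ ?_ (F.s.linB _ _ _ hr)
        rw [F.s.blin _ _ _ _ hlm]; exact hq'
      have hU : sp a' b' (h' + q') = sp l m (f + (q' - r)) := by
        have e : f + (q' - r) = h' + q' := by rw [hf]; abel
        rw [e]
        exact F.s.slin _ _ _ _ _ hlm.symm
      rw [hU] at hdU hRU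
      rw [hV'] at hle ⊢
      exact fin1 F H hI hII h1 ho2 h2 (by rw [hVf]; exact hν) hfrh hsh hqB hle hqu hdU hRU

end Pool.Agent.Lib.MP_e1f7e2_al.FA.H35
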